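import Mathlib
import Pool.Agent.H990R2.CTFam
import Pool.Agent.Y307.Prof.Cont

open Finset Filter Topology
open Pool.Agent

namespace Pool.Agent.Results.MP_ec2323_pr.TypicalProfile

noncomputable section

/-- Generator of the continuous-time simple random walk on `G`: at rate `1` the walk jumps to a
uniformly chosen neighbour of its current vertex. -/
def gen {V : Type} [Fintype V] [DecidableEq V] (G : SimpleGraph V) [DecidableRel G.Adj] :
    Matrix V V ℝ :=
  fun x y => (if G.Adj x y then 1 / (G.degree x : ℝ) else 0) - (if x = y then 1 else 0)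

/-- Law of `X_t` under `P_x`: the row `x` of the matrix exponential of `t` times the generator. -/
def law {V : Type} [Fintype V] [DecidableEq V] (G : SimpleGraph V) [DecidableRel G.Adj] (t : ℝ)
    (x y : V) : ℝ := NormedSpace.exp (t • gen G) x y

/-- The stationary distribution `π(x) = deg(x) / (2|E|)`. -/
def stat {V : Type} [Fintype V] [DecidableEq V] (G : SimpleGraph V) [DecidableRel G.Adj]
    (x : V) : ℝ := (G.degree x : ℝ) / (2 * (G.edgeFinset.card : ℝ))

/-- `d_x(t) = ‖P_x(X_t ∈ ·) - π‖_TV`. -/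
def d {V : Type} [Fintype V] [DecidableEq V] (G : SimpleGraph V) [DecidableRel G.Adj]
    (x : V) (t : ℝ) : ℝ := (1 / 2 : ℝ) * ∑ y, |law G t x y - stat G y|

/-- `τ_x = inf {t ≥ 0 : d_x(t) ≤ 1/4}`. -/
def tau {V : Type} [Fintype V] [DecidableEq V] (G : SimpleGraph V) [DecidableRel G.Adj]
    (x : V) : ℝ := sInf {t : ℝ | 0 ≤ t ∧ d G x t ≤ 1 / 4}

open Classical in
/-- `π`-probability of the set of vertices with the property `A`. -/
def prob {V : Type} [Fintype V] [DecidableEq V] (G : SimpleGraph V) [DecidableRel G.Adj]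
    (A : V → Prop) : ℝ := ∑ x, if A x then stat G x else 0

/-- `m` is a median of `τ_x` when `x` is drawn from `π`. -/
def IsMedian {V : Type} [Fintype V] [DecidableEq V] (G : SimpleGraph V) [DecidableRel G.Adj]
    (m : ℝ) : Prop := 1 / 2 ≤ prob G (fun x => tau G x ≤ m) ∧ 1 / 2 ≤ prob G (fun x => m ≤ tau G x)

/-- The relaxation time: the inverse of the spectral gap of the generator (the smallest nonzero
eigenvalue of minus the generator). -/
def trel {V : Type} [Fintype V] [DecidableEq V] (G : SimpleGraph V) [DecidableRel G.Adj] : ℝ :=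
  1 / sInf (spectrum ℝ (-gen G) \ {0})

/-- Total variation cutoff from a stationary (typical) start, at the medians `τ n`. -/
def HasTypicalCutoff (V : ℕ → Type) [∀ n, Fintype (V n)] [∀ n, DecidableEq (V n)]
    (G : ∀ n, SimpleGraph (V n)) [∀ n, DecidableRel (G n).Adj] (τ : ℕ → ℝ) : Prop :=
  ∀ ε : ℝ, 0 < ε → ε < 1 →
    Tendsto (fun n => prob (G n) (fun x => 1 - ε < d (G n) x ((1 - ε) * τ n))) atTop (𝓝 1) ∧
    Tendsto (fun n => prob (G n) (fun x => d (G n) x ((1 + ε) * τ n) < ε)) atTop (𝓝 1)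

section

variable {G : Type} [AddCommGroup G] [Fintype G] [DecidableEq G] {S : Finset G} {T : ℕ}

theorem gen_eq (h0 : (0 : G) ∉ S) (hn : ∀ s ∈ S, -s ∈ S) :
    gen (Helper394.cay S h0 hn) = H990R2.CT.srw S h0 hn - 1 := by
  ext x y
  rw [Matrix.sub_apply, Matrix.one_apply]
  rfl

theorem stat_eq (h : Helper394.Bad S T) (x : G) :
    stat (Helper394.cay S h.zero h.neg) x = 1 / (Fintype.card G : ℝ) := by
  have h1 := SimpleGraph.sum_degrees_eq_twice_card_edges (Helper394.cay S h.zero h.neg)
  simp only [Helper394.cay_degree, Finset.sum_const, Finset.card_univ, smul_eq_mul] at h1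
  have h2 : (2 * ((Helper394.cay S h.zero h.neg).edgeFinset.card : ℝ)) =
      Fintype.card G * S.card := by exact_mod_cast h1.symm
  have hG : (0 : ℝ) < Fintype.card G := by exact_mod_cast Fintype.card_pos
  have hc : (0 : ℝ) < S.card := by exact_mod_cast h.nonempty.card_pos
  rw [stat, h2, Helper394.cay_degree]
  field_simp

theorem d_eq (h : Helper394.Bad S T) (x : G) (t : ℝ) :
    d (Helper394.cay S h.zero h.neg) x t =
      (1 / 2 : ℝ) * ∑ y, |H990R2.CT.H (H990R2.CT.srw S h.zero h.neg) t x y -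
        1 / (Fintype.card G : ℝ)| := by
  simp only [d, law, gen_eq, stat_eq h]
  rfl

theorem tau_eq (h : Helper394.Bad S T) (x : G) :
    tau (Helper394.cay S h.zero h.neg) x = H990R2.CT.tau0 (H990R2.CT.srw S h.zero h.neg) := by
  simp only [tau, H990R2.CT.tau0, d_eq h]
  simp only [H990R2.CT.tv_translate (H990R2.CT.srw_mulVec S h.zero h.neg) _ _ x]

theorem prob_const (h : Helper394.Bad S T) (A : G → Prop) (p : Prop) [Decidable p]
    (hA : ∀ x, A x ↔ p) : prob (Helper394.cay S h.zero h.neg) A = if p then 1 else 0 := by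
  have hG : (0 : ℝ) < Fintype.card G := by exact_mod_cast Fintype.card_pos
  simp only [prob, stat_eq h, hA]
  split_ifs
  · simp only [Finset.sum_const, Finset.card_univ, nsmul_eq_mul]
    field_simp
  · simp

end

/-- There are connected circulant graphs `G_n` on `ℤ/N_n`, `N_n → ∞`, whose continuous-time
simple random walks have relaxation times at most `4` while the (unique) median `τ(n)` of the
mixing times tends to infinity, and from any starting points `x_n` one has
`d_{x_n}(s τ(n)) → 4^{-s}` for every `s ≥ 0`. So the product condition holds, and there is no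
total variation cutoff from a typical start: the first probability in the definition is
eventually `0` for every `ε ∈ (0,1/2)`, and the second one for every `ε ∈ (0,1/8]`. -/
theorem result :
    ∃ (N : ℕ → ℕ) (_ : ∀ n, NeZero (N n)) (G : ∀ n, SimpleGraph (ZMod (N n)))
      (_ : ∀ n, DecidableRel (G n).Adj) (τ : ℕ → ℝ),
      Tendsto N atTop atTop ∧
      (∀ n, (G n).Connected) ∧
      (∀ n, ∀ x y z : ZMod (N n), (G n).Adj (x + z) (y + z) ↔ (G n).Adj x y) ∧
      (∀ n m, IsMedian (G n) m ↔ m = τ n) ∧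
      Tendsto τ atTop atTop ∧
      (∀ n, 0 < trel (G n) ∧ trel (G n) ≤ 4) ∧
      Tendsto (fun n => τ n / trel (G n)) atTop atTop ∧
      (∀ s : ℝ, 0 ≤ s → ∀ x : ∀ n, ZMod (N n),
        Tendsto (fun n => d (G n) (x n) (s * τ n)) atTop (𝓝 ((4 : ℝ) ^ (-s)))) ∧
      (∀ ε : ℝ, 0 < ε → ε < 1 / 2 →
        ∀ᶠ n in atTop, prob (G n) (fun x => 1 - ε < d (G n) x ((1 - ε) * τ n)) = 0) ∧
      (∀ ε : ℝ, 0 < ε → ε ≤ 1 / 8 →
        ∀ᶠ n in atTop, prob (G n) (fun x => d (G n) x ((1 + ε) * τ n) < ε) = 0) ∧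
      ¬ HasTypicalCutoff (fun n => ZMod (N n)) G τ := by
  obtain ⟨N, hN, S, w, hNn, hw1, hw2, hE⟩ := Y307.Prof.exists_seq
  have hB : ∀ n, Helper394.Bad (S n) (n + 64) := fun n =>
    (hE n).bad (by omega) (by nlinarith) (by omega) (by push_cast; exact hw1 n)
      (by push_cast; exact hw2 n)
  let G : ∀ n, SimpleGraph (ZMod (N n)) := fun n => Helper394.cay (S n) (hB n).zero (hB n).neg
  let P : ∀ n, Matrix (ZMod (N n)) (ZMod (N n)) ℝ := fun n =>
    H990R2.CT.srw (S n) (hB n).zero (hB n).neg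
  have hP : ∀ n, ∀ f : ZMod (N n) → ℝ, (P n).mulVec f = Helper394.U (S n) f :=
    fun n f => H990R2.CT.srw_mulVec (S n) _ _ f
  have hdx : ∀ n (x : ZMod (N n)) r, d (G n) x r = d (G n) 0 r := by
    intro n x r
    change d (Helper394.cay (S n) (hB n).zero (hB n).neg) x r =
      d (Helper394.cay (S n) (hB n).zero (hB n).neg) 0 r
    rw [d_eq (hB n), d_eq (hB n), H990R2.CT.tv_translate (hP n) r _ x]
  have hsq : Y307.Prof.CSq (fun n r => d (G n) 0 r) (fun n => 1 / w n ^ 2)
      (fun n => 1 / (1 - w n)) (fun n => (1 / 2) ^ ((n + 64) ^ 2)) (fun n => n + 64) := by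
    refine Y307.Prof.csq_of hw1 hw2 _ ?_ ?_
    · intro n r hr
      have h1 := (hE n).ct_low (by omega) (Y307.Prof.w_pos hw2 n) (Y307.Prof.w_lt hw1 n) (hB n)
        (hP n) hr
      change _ ≤ d (Helper394.cay (S n) (hB n).zero (hB n).neg) 0 r
      rw [d_eq (hB n)]
      exact h1
    · intro n r hr
      have h1 := (hE n).ct_up (by omega) (Y307.Prof.w_pos hw2 n) (Y307.Prof.w_lt hw1 n) (hB n)
        (hP n) hr 0
      change d (Helper394.cay (S n) (hB n).zero (hB n).neg) 0 r ≤ _
      rw [d_eq (hB n)]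
      exact h1
  have hτt : Tendsto (fun n => H990R2.CT.tau0 (P n) / (1 / (1 - w n))) atTop
      (𝓝 (Real.log 4)) := by
    have h1 := hsq.mixing (ε := 1 / 4) (by norm_num) (by norm_num)
    rw [one_div_one_div] at h1
    refine h1.congr fun n => ?_
    congr 1
    have h2 := tau_eq (hB n) 0
    exact h2
  have hL : 0 < Real.log 4 := Real.log_pos (by norm_num)
  have hτ0 : ∀ n, 0 ≤ H990R2.CT.tau0 (P n) := by
    intro n
    have h1 := H990R2.CT.tau0_ge (hB n) (by omega) (hP n)
    exact le_trans (by positivity) h1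
  have hτ : Tendsto (fun n => H990R2.CT.tau0 (P n)) atTop atTop := by
    refine (hτt.pos_mul_atTop hL hsq.tlim).congr fun n => ?_
    exact div_mul_cancel₀ _ (hsq.tpos n).ne'
  have hprof : ∀ s : ℝ, 0 ≤ s →
      Tendsto (fun n => d (G n) 0 (s * H990R2.CT.tau0 (P n))) atTop (𝓝 ((4 : ℝ) ^ (-s))) := by
    intro s hs
    have h1 : Tendsto (fun n => (s * H990R2.CT.tau0 (P n)) / (1 / (1 - w n))) atTop
        (𝓝 (s * Real.log 4)) := by
      refine (hτt.const_mul s).congr fun n => ?_
      ring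
    have h2 := hsq.profile (fun n => mul_nonneg hs (hτ0 n)) h1
    have e : (4 : ℝ) ^ (-s) = Real.exp (-(s * Real.log 4)) := by
      rw [Real.rpow_def_of_pos (by norm_num)]
      congr 1
      ring
    rw [e]
    exact h2
  have hrel : ∀ n, 0 < trel (G n) ∧ trel (G n) ≤ 4 := by
    intro n
    have hge : 1 / 4 ≤ sInf (spectrum ℝ (-gen (G n)) \ {0}) := by
      have e : gen (G n) = P n - 1 := gen_eq _ _
      rw [e]
      obtain ⟨r, hr, hr0⟩ := H990R2.CT.specR_nonempty (hB n) (hP n)
      apply le_csInf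
      · exact ⟨r, hr, hr0⟩
      · rintro b ⟨hb, hb0⟩
        exact H990R2.CT.specR (hB n) (hP n) b hb hb0
    refine ⟨one_div_pos.mpr (by linarith), ?_⟩
    rw [trel, div_le_iff₀ (by linarith)]
    linarith
  have hf1 : ∀ ε : ℝ, 0 < ε → ε < 1 / 2 →
      ∀ᶠ n in atTop, prob (G n) (fun x => 1 - ε < d (G n) x ((1 - ε) * H990R2.CT.tau0 (P n)))
        = 0 := by
    intro ε h0 h1
    have h2 : (4 : ℝ) ^ (-(1 - ε)) < 1 - ε := by
      have h3 : (4 : ℝ) ^ (-(1 - ε)) = (1 / 4) * (1 / 4) ^ (-ε) := by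
        have e4 : ((1 : ℝ) / 4) ^ (-ε) = 4 ^ ε := by
          rw [Real.rpow_neg (by norm_num), one_div, Real.inv_rpow (by norm_num), inv_inv]
        rw [e4, neg_sub, Real.rpow_sub (by norm_num), Real.rpow_one]
        ring
      have h4 : (4 : ℝ) ^ ε = (2 : ℝ) ^ (2 * ε) := by
        rw [Real.rpow_mul (by norm_num)]
        norm_num
      have h5 : (2 : ℝ) ^ (2 * ε) ≤ 1 + 2 * ε := by
        have h6 := rpow_one_add_le_one_add_mul_self (s := 1) (by norm_num)
          (p := 2 * ε) (by linarith) (by linarith)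
        norm_num at h6
        linarith
      have h7 : (4 : ℝ) ^ (-(1 - ε)) = (1 / 4) * (4 : ℝ) ^ ε := by
        rw [neg_sub, Real.rpow_sub (by norm_num), Real.rpow_one]
        ring
      rw [h7, h4]
      linarith
    filter_upwards [(hprof (1 - ε) (by linarith)).eventually (gt_mem_nhds h2)] with n hn
    have h3 := prob_const (hB n) (fun x => 1 - ε <
      d (G n) x ((1 - ε) * H990R2.CT.tau0 (P n))) False (fun x => by
        rw [iff_false, not_lt, hdx]
        exact hn.le)
    rw [if_neg not_false] at h3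
    exact h3
  have hf2 : ∀ ε : ℝ, 0 < ε → ε ≤ 1 / 8 →
      ∀ᶠ n in atTop, prob (G n) (fun x => d (G n) x ((1 + ε) * H990R2.CT.tau0 (P n)) < ε)
        = 0 := by
    intro ε h0 h1
    have h2 : ε < (4 : ℝ) ^ (-(1 + ε)) := by
      have h3 : (4 : ℝ) ^ (-(3 / 2 : ℝ)) = 1 / 8 := by
        rw [Real.rpow_neg (by norm_num), show (4 : ℝ) = 2 ^ (2 : ℝ) by norm_num,
          ← Real.rpow_mul (by norm_num)]
        norm_num
      have h4 : (4 : ℝ) ^ (-(3 / 2 : ℝ)) < (4 : ℝ) ^ (-(1 + ε)) :=
        Real.rpow_lt_rpow_of_exponent_lt (by norm_num) (by linarith)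
      linarith
    filter_upwards [(hprof (1 + ε) (by linarith)).eventually (lt_mem_nhds h2)] with n hn
    have h3 := prob_const (hB n) (fun x =>
      d (G n) x ((1 + ε) * H990R2.CT.tau0 (P n)) < ε) False (fun x => by
        rw [iff_false, not_lt, hdx]
        exact hn.le)
    rw [if_neg not_false] at h3
    exact h3
  refine ⟨N, hN, G, fun n => inferInstance, fun n => H990R2.CT.tau0 (P n), ?_,
    fun n => Helper394.cay_connected (hB n), ?_, ?_, hτ, hrel, ?_, ?_, hf1, hf2, ?_⟩
  · refine tendsto_atTop_mono (fun n => ?_) tendsto_id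
    have := hNn n
    simp only [id]
    omega
  · intro n x y z
    change (Helper394.cay (S n) _ _).Adj (x + z) (y + z) ↔ (Helper394.cay (S n) _ _).Adj x y
    rw [Helper394.cay_adj, Helper394.cay_adj, add_sub_add_right_eq_sub]
  · intro n m
    classical
    rw [IsMedian, prob_const (hB n) _ (H990R2.CT.tau0 (P n) ≤ m)
        (fun x => by rw [tau_eq (hB n)]),
      prob_const (hB n) _ (m ≤ H990R2.CT.tau0 (P n)) (fun x => by rw [tau_eq (hB n)])]
    constructor
    · rintro ⟨h1, h2⟩
      have h3 : H990R2.CT.tau0 (P n) ≤ m := by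
        by_contra hcon
        rw [if_neg hcon] at h1
        norm_num at h1
      have h4 : m ≤ H990R2.CT.tau0 (P n) := by
        by_contra hcon
        rw [if_neg hcon] at h2
        norm_num at h2
      exact le_antisymm h4 h3
    · rintro rfl
      rw [if_pos le_rfl]
      norm_num
  · refine tendsto_atTop_mono (fun n => ?_) (hτ.atTop_div_const (by norm_num : (0 : ℝ) < 4))
    exact div_le_div_of_nonneg_left (hτ0 n) (hrel n).1 (hrel n).2
  · intro s hs x
    refine (hprof s hs).congr fun n => ?_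
    rw [hdx n (x n)]
  · intro hcut
    obtain ⟨h1, _⟩ := hcut (1 / 4) (by norm_num) (by norm_num)
    have h2 := hf1 (1 / 4) (by norm_num) (by norm_num)
    have h3 : Tendsto (fun n => prob (G n) (fun x => 1 - 1 / 4 <
        d (G n) x ((1 - 1 / 4) * H990R2.CT.tau0 (P n)))) atTop (𝓝 0) :=
      tendsto_const_nhds.congr' (by filter_upwards [h2] with n hn; exact hn.symm)
    have := tendsto_nhds_unique h1 h3
    norm_num at this

end

end Pool.Agent.Results.MP_ec2323_pr.TypicalProfile
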